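import Pool.Agent.Lib.MP_a8dae7_an.UN.CYALL

/-!
# The trace inequality, with a constant independent of the eigenvalue, for all positively curved
hypersurfaces of the torus, in every dimension
-/

set_option autoImplicit false

open scoped BigOperators ContDiff
open MeasureTheory

namespace Pool.Agent.Results.MP_a8dae7_an.UniformTrace

open Pool.Agent.Lib.MP_a8dae7_an

/-- The Euclidean space `ℝ^n`. -/
abbrev E (n : ℕ) : Type := EuclideanSpace ℝ (Fin n)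

/-- The trigonometric polynomial `u(x) = ∑_{n ∈ s} a_n e^{i n·x}` on `ℝ^d` (`2π`-periodic in every
coordinate). If all `n ∈ s` have `|n| = lam` it is an eigenfunction, `-Δ u = lam² u`, and every
eigenfunction of the torus is of this form. -/
noncomputable def expSum {d : ℕ} (s : Finset (Fin d → ℤ)) (a : (Fin d → ℤ) → ℂ) (x : Fin d → ℝ) : ℂ :=
  ∑ n ∈ s, a n * Complex.exp (Complex.I * ((∑ i, (n i : ℝ) * x i : ℝ) : ℂ))

/-- The second derivative `D²g(0)(v, v)`. -/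
noncomputable def hess {k : ℕ} (g : E k → ℝ) (v : E k) : ℝ :=
  fderiv ℝ (fderiv ℝ g) 0 v v

/-- `g` is `C^∞`, `g(0) = 0`, `Dg(0) = 0` and the Hessian `D²g(0)` is positive definite. -/
def GraphFunction {k : ℕ} (g : E k → ℝ) : Prop :=
  ContDiff ℝ ∞ g ∧ g 0 = 0 ∧ fderiv ℝ g 0 = 0 ∧ ∀ v : E k, v ≠ 0 → 0 < hess g v

/-- `Sg ⊆ ℝ^(k+1)` is positively curved at `p`: `p` is the centre of a ball in which `Sg` is contained in
the graph `{p + J y + g(y) nu}` over the hyperplane through `p` with unit normal `nu`, where `g` is `C^∞`,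
`g(0) = 0`, `Dg(0) = 0` and the Hessian `D²g(0)` is positive definite. -/
def PositivelyCurvedAt {k : ℕ} (Sg : Set (E (k + 1))) (p : E (k + 1)) : Prop :=
  ∃ (J : E k →ₗᵢ[ℝ] E (k + 1)) (nu : E (k + 1)) (g : E k → ℝ) (rho : ℝ),
    ‖nu‖ = 1 ∧ (∀ v, inner ℝ nu (J v) = 0) ∧ GraphFunction g ∧ 0 < rho ∧
    ∀ x ∈ Sg, ‖x - p‖ < rho → ∃ y : E k, x = p + J y + g y • nu

/-- `∫_Sg |u|² dH^k` for `u = expSum s a`; `H^k` is the `k`-dimensional Hausdorff measure of `ℝ^(k+1)`. -/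
noncomputable def surfaceEnergy {k : ℕ} (Sg : Set (E (k + 1))) (s : Finset (Fin (k + 1) → ℤ))
    (a : (Fin (k + 1) → ℤ) → ℂ) : ENNReal :=
  ∫⁻ x in Sg, ENNReal.ofReal (‖expSum s a (fun i => x i)‖ ^ 2) ∂(Measure.hausdorffMeasure (k : ℝ))

/-- `∫_{[0,2π]^d} |u|²` for `u = expSum s a`. -/
noncomputable def torusEnergy {d : ℕ} (s : Finset (Fin d → ℤ)) (a : (Fin d → ℤ) → ℂ) : ℝ :=
  ∫ x in Set.pi Set.univ (fun _ : Fin d => Set.Icc (0 : ℝ) (2 * Real.pi)), ‖expSum s a x‖ ^ 2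

/-- The trace inequality for compact positively curved hypersurfaces of `T^(k+1)`: the constant `C` depends
only on the hypersurface, not on the eigenvalue `lam²`. -/
theorem result (k : ℕ) (hk : 1 ≤ k) (Sg : Set (E (k + 1))) (hc : IsCompact Sg)
    (hp : ∀ p ∈ Sg, PositivelyCurvedAt Sg p) :
    ∃ C : ℝ, 0 < C ∧ ∀ (lam : ℝ) (s : Finset (Fin (k + 1) → ℤ)) (a : (Fin (k + 1) → ℤ) → ℂ),
      (∀ n ∈ s, ∑ i, (n i : ℝ) ^ 2 = lam ^ 2) →
      surfaceEnergy Sg s a ≤ ENNReal.ofReal (C * torusEnergy s a) :=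
  UN.main k hk Sg hc (fun p hpS => by
    obtain ⟨J, nu, g, rho, h1, h2, ⟨h3, h4, h5, h6⟩, h7, h8⟩ := hp p hpS
    exact ⟨J, nu, g, rho, h1, h2, h3, h4, h5, h6, h7, h8⟩)

end Pool.Agent.Results.MP_a8dae7_an.UniformTrace
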